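import Pool.Agent.H316.FA.Code

/-!
Every FA-presentation of `(ℕ; S)` is compressed by another one at least as fast as the tower
function.
-/

namespace Pool.Agent.Results.MP_0022d4_lc.TowerCompression

open Pool.Agent.H316.FA

/-- The convolution of two words: they are read in parallel, and the shorter one is padded by
`none`. -/
def conv {A : Type} : List A → List A → List (Option A × Option A)
  | [], [] => []
  | a :: u, [] => (some a, none) :: conv u []
  | [], b :: v => (none, some b) :: conv [] v
  | a :: u, b :: v => (some a, some b) :: conv u v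

/-- Synchronously recognisable binary relations: the language of convolutions is regular. -/
def SyncRec {A : Type} (R : List A → List A → Prop) : Prop :=
  Language.IsRegular ({w | ∃ u v, R u v ∧ w = conv u v} : Language (Option A × Option A))

/-- `val` on the set `dom` of words is an FA-presentation of the structure `(ℕ; S)`. -/
structure IsPres {A : Type} (dom : Language A) (val : List A → ℕ) : Prop where
  regular : dom.IsRegular
  onto : ∀ n, ∃ u ∈ dom, val u = n
  eq_rec : SyncRec fun u v => u ∈ dom ∧ v ∈ dom ∧ val u = val v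
  succ_rec : SyncRec fun u v => u ∈ dom ∧ v ∈ dom ∧ val v = val u + 1

/-- The least length of a normal form of `x`. -/
noncomputable def shortest {A : Type} (dom : Language A) (val : List A → ℕ) (x : ℕ) : ℕ :=
  sInf {k | ∃ v ∈ dom, val v = x ∧ v.length = k}

/-- The compressibility rate of the presentation `(dom, val)` relative to `(dom₀, val₀)`. -/
noncomputable def rate {B A : Type} (dom : Language B) (val : List B → ℕ) (dom₀ : Language A)
    (val₀ : List A → ℕ) (n : ℕ) : ℕ :=
  sSup {k | ∃ u ∈ dom, u.length ≤ n ∧ k = shortest dom₀ val₀ (val u)}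

/-- The tower function. -/
def T : ℕ → ℕ
  | 0 => 1
  | n + 1 => 2 ^ T n

/-! ### Proof -/

lemma conv_nil {A : Type} : conv ([] : List A) [] = [] := by simp [conv]

lemma conv_cn {A : Type} (a : A) (u : List A) :
    conv (a :: u) [] = (some a, none) :: conv u [] := by simp [conv]

lemma conv_nc {A : Type} (b : A) (v : List A) :
    conv [] (b :: v) = (none, some b) :: conv [] v := by simp [conv]

lemma conv_cc {A : Type} (a b : A) (u v : List A) :
    conv (a :: u) (b :: v) = (some a, some b) :: conv u v := by simp [conv]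

lemma conv_inj {A : Type} : ∀ (u v u' v' : List A), conv u v = conv u' v' → u = u' ∧ v = v'
  | [], [], u', v', h => by
    cases u' <;> cases v' <;> simp [conv] at h ⊢
  | a :: u, [], u', v', h => by
    cases u' <;> cases v' <;> simp [conv] at h ⊢
    have := conv_inj _ _ _ _ h.2
    exact ⟨h.1, this.1⟩
  | [], b :: v, u', v', h => by
    cases u' <;> cases v' <;> simp [conv] at h ⊢
    have := conv_inj _ _ _ _ h.2
    exact ⟨h.1, this.2⟩
  | a :: u, b :: v, u', v', h => by
    cases u' <;> cases v' <;> simp [conv] at h ⊢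
    have := conv_inj _ _ _ _ h.2
    exact ⟨⟨h.1.1, this.1⟩, h.1.2, this.2⟩

lemma rg_conv {A : Type} : Rg (fun w : List (Option A × Option A) => ∃ u v, w = conv u v) := by
  have key := Rg.of_states (Λ := Option A × Option A) (Q := BQ) (fun q ℓ => match q, ℓ with
    | .run, (some _, some _) => .run
    | .run, (some _, none) => .vEnd
    | .run, (none, some _) => .uEnd
    | .uEnd, (none, some _) => .uEnd
    | .vEnd, (some _, none) => .vEnd
    | _, _ => .dead)
    (fun q w => match q with
      | .run => ∃ u v, w = conv u v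
      | .uEnd => ∃ v, w = conv [] v
      | .vEnd => ∃ u, w = conv u []
      | _ => False) ?_ .run
  · exact key
  · rintro q ⟨o, o'⟩ W
    cases q
    · rcases o with _ | a <;> rcases o' with _ | b <;> simp only
      · refine iff_of_false ?_ id
        rintro ⟨u, v, h⟩
        cases u <;> cases v <;> simp [conv] at h
      · constructor
        · rintro ⟨u, v, h⟩
          cases u <;> cases v <;> simp [conv] at h
          exact ⟨_, h.2⟩
        · rintro ⟨v, rfl⟩
          exact ⟨[], b :: v, (conv_nc b v).symm⟩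
      · constructor
        · rintro ⟨u, v, h⟩
          cases u <;> cases v <;> simp [conv] at h
          exact ⟨_, h.2⟩
        · rintro ⟨u, rfl⟩
          exact ⟨a :: u, [], (conv_cn a u).symm⟩
      · constructor
        · rintro ⟨u, v, h⟩
          cases u <;> cases v <;> simp [conv] at h
          exact ⟨_, _, h.2⟩
        · rintro ⟨u, v, rfl⟩
          exact ⟨a :: u, b :: v, (conv_cc a b u v).symm⟩
    · simp
    · rcases o with _ | a <;> rcases o' with _ | b <;> simp only
      · refine iff_of_false ?_ id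
        rintro ⟨u, h⟩
        cases u <;> simp [conv] at h
      · refine iff_of_false ?_ id
        rintro ⟨u, h⟩
        cases u <;> simp [conv] at h
      · constructor
        · rintro ⟨u, h⟩
          cases u <;> simp [conv] at h
          exact ⟨_, h.2⟩
        · rintro ⟨u, rfl⟩
          exact ⟨a :: u, (conv_cn a u).symm⟩
      · refine iff_of_false ?_ id
        rintro ⟨u, h⟩
        cases u <;> simp [conv] at h
    · rcases o with _ | a <;> rcases o' with _ | b <;> simp only
      · refine iff_of_false ?_ id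
        rintro ⟨u, h⟩
        cases u <;> simp [conv] at h
      · constructor
        · rintro ⟨u, h⟩
          cases u <;> simp [conv] at h
          exact ⟨_, h.2⟩
        · rintro ⟨u, rfl⟩
          exact ⟨b :: u, (conv_nc b u).symm⟩
      · refine iff_of_false ?_ id
        rintro ⟨u, h⟩
        cases u <;> simp [conv] at h
      · refine iff_of_false ?_ id
        rintro ⟨u, h⟩
        cases u <;> simp [conv] at h
    · simp
    · simp
    · simp

/-- From convolutions to tracks over a larger alphabet. -/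
lemma transfer {A : Type} {R : List A → List A → Prop} (h : SyncRec R) :
    R2 (fun x y : List (A ⊕ Bool) => ∃ u v, R u v ∧ x = u.map Sum.inl ∧ y = v.map Sum.inl) := by
  obtain ⟨σ, hσ, M, hM⟩ := h
  have hM' : ∀ u v, M.evalFrom M.start (conv u v) ∈ M.accept ↔ R u v := by
    intro u v
    have := Set.ext_iff.1 hM (conv u v)
    refine this.trans ⟨?_, fun h => ⟨u, v, h, rfl⟩⟩
    rintro ⟨u', v', hR, hc⟩
    obtain ⟨rfl, rfl⟩ := conv_inj _ _ _ _ hc
    exact hR
  have key := R2_of_states (S := A ⊕ Bool) (Q := BQ × σ) (fun q o o' => match q.1, o, o' with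
    | .run, some (.inl a), some (.inl b) => (.run, M.step q.2 (some a, some b))
    | .run, some (.inl a), none => (.vEnd, M.step q.2 (some a, none))
    | .run, none, some (.inl b) => (.uEnd, M.step q.2 (none, some b))
    | .run, none, none => (.done, q.2)
    | .uEnd, _, some (.inl b) => (.uEnd, M.step q.2 (none, some b))
    | .uEnd, _, none => (.done, q.2)
    | .vEnd, some (.inl a), _ => (.vEnd, M.step q.2 (some a, none))
    | .vEnd, none, _ => (.done, q.2)
    | .done, _, _ => (.done, q.2)
    | _, _, _ => (.dead, q.2))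
    (fun q x y => match q.1 with
      | .run => ∃ u v, x = u.map Sum.inl ∧ y = v.map Sum.inl ∧
          M.evalFrom q.2 (conv u v) ∈ M.accept
      | .uEnd => ∃ v, y = v.map Sum.inl ∧ M.evalFrom q.2 (conv [] v) ∈ M.accept
      | .vEnd => ∃ u, x = u.map Sum.inl ∧ M.evalFrom q.2 (conv u []) ∈ M.accept
      | .done => q.2 ∈ M.accept
      | _ => False) ?_ ?_ ?_ ?_ (.run, M.start)
  · refine key.congr fun x y => ?_
    constructor
    · rintro ⟨u, v, hR, rfl, rfl⟩
      exact ⟨u, v, rfl, rfl, (hM' u v).2 hR⟩
    · rintro ⟨u, v, rfl, rfl, hacc⟩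
      exact ⟨u, v, (hM' u v).1 hacc, rfl, rfl⟩
  · rintro ⟨q, s⟩ a x b y
    cases q
    · rcases a with a | a <;> rcases b with b | b <;> simp only
      · constructor
        · rintro ⟨u, v, hu, hv, h⟩
          cases u <;> cases v <;> simp at hu hv
          obtain ⟨rfl, rfl⟩ := hu
          obtain ⟨rfl, rfl⟩ := hv
          rw [conv_cc, DFA.evalFrom_cons] at h
          exact ⟨_, _, rfl, rfl, h⟩
        · rintro ⟨u, v, rfl, rfl, h⟩
          refine ⟨a :: u, b :: v, rfl, rfl, ?_⟩
          rw [conv_cc, DFA.evalFrom_cons]; exact h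
      all_goals
        refine iff_of_false ?_ id
        rintro ⟨u, v, hu, hv, h⟩
        cases u <;> cases v <;> simp at hu hv
    · simp
    · rcases a with a | a <;> simp only
      · constructor
        · rintro ⟨u, hu, h⟩
          cases u <;> simp at hu
          obtain ⟨rfl, rfl⟩ := hu
          rw [conv_cn, DFA.evalFrom_cons] at h
          exact ⟨_, rfl, h⟩
        · rintro ⟨u, rfl, h⟩
          refine ⟨a :: u, rfl, ?_⟩
          rw [conv_cn, DFA.evalFrom_cons]; exact h
      · refine iff_of_false ?_ id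
        rintro ⟨u, hu, h⟩
        cases u <;> simp at hu
    · rcases b with b | b <;> simp only
      · constructor
        · rintro ⟨u, hu, h⟩
          cases u <;> simp at hu
          obtain ⟨rfl, rfl⟩ := hu
          rw [conv_nc, DFA.evalFrom_cons] at h
          exact ⟨_, rfl, h⟩
        · rintro ⟨u, rfl, h⟩
          refine ⟨b :: u, rfl, ?_⟩
          rw [conv_nc, DFA.evalFrom_cons]; exact h
      · refine iff_of_false ?_ id
        rintro ⟨u, hu, h⟩
        cases u <;> simp at hu
    · simp
    · simp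
    · simp
  · rintro ⟨q, s⟩ a x y
    cases q
    · rcases a with a | a <;> simp only
      · constructor
        · rintro ⟨u, v, hu, hv, h⟩
          cases u <;> cases v <;> simp at hu hv
          obtain ⟨rfl, rfl⟩ := hu
          rw [conv_cn, DFA.evalFrom_cons] at h
          exact ⟨_, rfl, h⟩
        · rintro ⟨u, rfl, h⟩
          refine ⟨a :: u, [], rfl, rfl, ?_⟩
          rw [conv_cn, DFA.evalFrom_cons]; exact h
      · refine iff_of_false ?_ id
        rintro ⟨u, v, hu, hv, h⟩
        cases u <;> cases v <;> simp at hu hv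
    · simp
    · rcases a with a | a <;> simp only
      · constructor
        · rintro ⟨u, hu, h⟩
          cases u <;> simp at hu
          obtain ⟨rfl, rfl⟩ := hu
          rw [conv_cn, DFA.evalFrom_cons] at h
          exact ⟨_, rfl, h⟩
        · rintro ⟨u, rfl, h⟩
          refine ⟨a :: u, rfl, ?_⟩
          rw [conv_cn, DFA.evalFrom_cons]; exact h
      · refine iff_of_false ?_ id
        rintro ⟨u, hu, h⟩
        cases u <;> simp at hu
    · simp only
      constructor
      · rintro ⟨v, hv, h⟩
        cases v <;> simp at hv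
        simpa [conv_nil] using h
      · intro h
        exact ⟨[], rfl, by simpa [conv_nil] using h⟩
    · simp
    · simp
    · simp
  · rintro ⟨q, s⟩ x b y
    cases q
    · rcases b with b | b <;> simp only
      · constructor
        · rintro ⟨u, v, hu, hv, h⟩
          cases u <;> cases v <;> simp at hu hv
          obtain ⟨rfl, rfl⟩ := hv
          rw [conv_nc, DFA.evalFrom_cons] at h
          exact ⟨_, rfl, h⟩
        · rintro ⟨v, rfl, h⟩
          refine ⟨[], b :: v, rfl, rfl, ?_⟩
          rw [conv_nc, DFA.evalFrom_cons]; exact h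
      · refine iff_of_false ?_ id
        rintro ⟨u, v, hu, hv, h⟩
        cases u <;> cases v <;> simp at hu hv
    · simp
    · simp only
      constructor
      · rintro ⟨v, hv, h⟩
        cases v <;> simp at hv
        simpa [conv_nil] using h
      · intro h
        exact ⟨[], rfl, by simpa [conv_nil] using h⟩
    · rcases b with b | b <;> simp only
      · constructor
        · rintro ⟨u, hu, h⟩
          cases u <;> simp at hu
          obtain ⟨rfl, rfl⟩ := hu
          rw [conv_nc, DFA.evalFrom_cons] at h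
          exact ⟨_, rfl, h⟩
        · rintro ⟨u, rfl, h⟩
          refine ⟨b :: u, rfl, ?_⟩
          rw [conv_nc, DFA.evalFrom_cons]; exact h
      · refine iff_of_false ?_ id
        rintro ⟨u, hu, h⟩
        cases u <;> simp at hu
    · simp
    · simp
    · simp
  · rintro ⟨q, s⟩ x y
    cases q
    · simp only
      constructor
      · rintro ⟨u, v, hu, hv, h⟩
        cases u <;> cases v <;> simp at hu hv
        simpa [conv_nil] using h
      · intro h
        exact ⟨[], [], rfl, rfl, by simpa [conv_nil] using h⟩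
    · simp
    · simp only
      constructor
      · rintro ⟨v, hv, h⟩
        cases v <;> simp at hv
        simpa [conv_nil] using h
      · intro h
        exact ⟨[], rfl, by simpa [conv_nil] using h⟩
    · simp only
      constructor
      · rintro ⟨v, hv, h⟩
        cases v <;> simp at hv
        simpa [conv_nil] using h
      · intro h
        exact ⟨[], rfl, by simpa [conv_nil] using h⟩
    · simp
    · simp
    · simp

lemma rg_hdr_eq {Λ : Type} (κ κ' : Λ → Fin 7) : Rg (fun W => hdr κ W = hdr κ' W) := by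
  refine (Rg.of_states (Q := Option Bool)
    (fun q ℓ => match q with
      | none => some (decide (κ ℓ = κ' ℓ))
      | some b => some b)
    (fun q W => match q with
      | none => hdr κ W = hdr κ' W
      | some b => b = true) ?_ none)
  intro q ℓ W
  rcases q with _ | b
  · simp [hdr]
  · simp

lemma syncRec_of {Γ : Type} {P : List (Option Γ × Option Γ) → Prop} (hP : Rg P)
    {R : List Γ → List Γ → Prop} (h : ∀ U V, P (conv U V) ↔ R U V) : SyncRec R := by
  have := hP.and (rg_conv (A := Γ))
  refine Rg.congr this fun w => ?_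
  constructor
  · rintro ⟨u, v, hR, rfl⟩
    exact ⟨(h u v).2 hR, u, v, rfl⟩
  · rintro ⟨h1, u, v, rfl⟩
    exact ⟨u, v, (h u v).1 h1, rfl⟩

lemma ct_conv1 {Γ S : Type} (τ : Γ → Option S) : ∀ U V : List Γ,
    ct (fun ℓ : Option Γ × Option Γ => ℓ.1.bind τ) (conv U V) = ct τ U
  | [], [] => by simp [conv, ct]
  | a :: u, [] => by
    rw [conv_cn]
    rcases h : τ a with _ | s
    · rw [ct_none h, ct_none (by simpa using h)]
    · rw [ct_some h, ct_some (a := s) (by simpa using h), ct_conv1 τ u []]
  | [], b :: v => by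
    rw [conv_nc, ct_none (by simp)]
    simp [ct]
  | a :: u, b :: v => by
    rw [conv_cc]
    rcases h : τ a with _ | s
    · rw [ct_none h, ct_none (by simpa using h)]
    · rw [ct_some h, ct_some (a := s) (by simpa using h), ct_conv1 τ u v]

lemma ct_conv2 {Γ S : Type} (τ : Γ → Option S) : ∀ U V : List Γ,
    ct (fun ℓ : Option Γ × Option Γ => ℓ.2.bind τ) (conv U V) = ct τ V
  | [], [] => by simp [conv, ct]
  | [], b :: v => by
    rw [conv_nc]
    rcases h : τ b with _ | s
    · rw [ct_none h, ct_none (by simpa using h)]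
    · rw [ct_some h, ct_some (a := s) (by simpa using h), ct_conv2 τ [] v]
  | a :: u, [] => by
    rw [conv_cn, ct_none (by simp)]
    simp [ct]
  | a :: u, b :: v => by
    rw [conv_cc]
    rcases h : τ b with _ | s
    · rw [ct_none h, ct_none (by simpa using h)]
    · rw [ct_some h, ct_some (a := s) (by simpa using h), ct_conv2 τ u v]

lemma hdr_conv1 {Γ : Type} (κ : Γ → Fin 7) (U V : List Γ) :
    hdr (fun ℓ : Option Γ × Option Γ => (ℓ.1.map κ).getD 5) (conv U V) = hdr κ U := by
  cases U <;> cases V <;> simp [conv, hdr]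

lemma hdr_conv2 {Γ : Type} (κ : Γ → Fin 7) (U V : List Γ) :
    hdr (fun ℓ : Option Γ × Option Γ => (ℓ.2.map κ).getD 5) (conv U V) = hdr κ V := by
  cases U <;> cases V <;> simp [conv, hdr]

/-- The letters of the new presentation. -/
abbrev Let (S : Type) : Type := Fin 7 × Option S × Option S × Option S

/-- The decoding of a word. -/
def dec {S : Type} (W : List (Let S)) : Fin 7 × List S × List S × List S :=
  (hdr (fun γ => γ.1) W, ct (fun γ => γ.2.1) W, ct (fun γ => γ.2.2.1) W, ct (fun γ => γ.2.2.2) W)

/-- A word with given header and contents. -/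
def mk {S : Type} (h : Fin 7) : ℕ → List S → List S → List S → List (Let S)
  | 0, _, _, _ => []
  | n + 1, x, y, w => (h, x.head?, y.head?, w.head?) :: mk h n x.tail y.tail w.tail

lemma mk_length {S : Type} (h : Fin 7) (n : ℕ) : ∀ x y w : List S, (mk h n x y w).length = n := by
  induction n with
  | zero => intro x y w; rfl
  | succ n ih => intro x y w; simp [mk, ih]

lemma ct_mk {S : Type} (h : Fin 7) (n : ℕ) : ∀ x y w : List S,
    ct (fun γ : Let S => γ.2.1) (mk h n x y w) = x.take n ∧
    ct (fun γ : Let S => γ.2.2.1) (mk h n x y w) = y.take n ∧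
    ct (fun γ : Let S => γ.2.2.2) (mk h n x y w) = w.take n := by
  induction n with
  | zero => intro x y w; simp [mk, ct]
  | succ n ih =>
    intro x y w
    obtain ⟨h1, h2, h3⟩ := ih x.tail y.tail w.tail
    refine ⟨?_, ?_, ?_⟩
    · cases x with
      | nil => simp [mk, ct]
      | cons a x => simpa [mk, ct] using h1
    · cases y with
      | nil => simp [mk, ct]
      | cons a x => simpa [mk, ct] using h2
    · cases w with
      | nil => simp [mk, ct]
      | cons a x => simpa [mk, ct] using h3

lemma T_le {m : ℕ} (n : ℕ) : T n ≤ (nb m)^[n] 0 + 2 := by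
  induction n with
  | zero => simp [T]
  | succ n ih =>
    rw [Function.iterate_succ_apply', T]
    have h1 := NN_ge m ((nb m)^[n] 0 + 2)
    have h2 : 2 ^ T n ≤ 2 ^ ((nb m)^[n] 0 + 2) := Nat.pow_le_pow_right (by norm_num) ih
    have h3 : nb m ((nb m)^[n] 0) = NN m ((nb m)^[n] 0 + 2) := rfl
    omega

/-- **Result.** For every FA-presentation `(dom₀, val₀)` of `(ℕ; S)` there is an FA-presentation
whose compressibility rate relative to `(dom₀, val₀)` is at least the tower function, for all
`n`. -/
theorem result (A : Type) [Finite A] (dom₀ : Language A) (val₀ : List A → ℕ)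
    (h₀ : IsPres dom₀ val₀) : ∃ (B : Type) (_ : Finite B) (dom : Language B) (val : List B → ℕ),
      IsPres dom val ∧ ∀ n, T n ≤ rate dom val dom₀ val₀ n := by
  classical
  have := Fintype.ofFinite A
  set S := A ⊕ Bool with hS
  set m := Fintype.card A with hm
  have e : S ≃ Fin (m + 2) := Fintype.equivFinOfCardEq (by simp [hS, hm])
  have hinl : Function.Injective (List.map (Sum.inl : A → S)) :=
    List.map_injective_iff.2 Sum.inl_injective
  -- the minimal codes
  have hex : ∀ a, ∃ n, ∃ u ∈ dom₀, val₀ u = a ∧ st e n = u.map Sum.inl := by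
    intro a
    obtain ⟨u, hu, hv⟩ := h₀.onto a
    exact ⟨idx e (u.map Sum.inl), u, hu, hv, st_idx e _⟩
  set cd : ℕ → List S := fun a => st e (Nat.find (hex a)) with hcd
  have hcd1 : ∀ a, ∃ u ∈ dom₀, val₀ u = a ∧ cd a = u.map Sum.inl := fun a =>
    Nat.find_spec (hex a)
  have hmin : ∀ a, ∀ u ∈ dom₀, val₀ u = a → idx e (cd a) ≤ idx e (u.map Sum.inl) := by
    intro a u hu hv
    rw [hcd, idx_st]
    exact Nat.find_min' (hex a) ⟨u, hu, hv, st_idx e _⟩
  have hcdinj : Function.Injective cd := by
    intro a b h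
    obtain ⟨u, hu, hua, huc⟩ := hcd1 a
    obtain ⟨v, hv, hvb, hvc⟩ := hcd1 b
    have : u = v := hinl (by rw [← huc, h, hvc])
    rw [← hua, this, hvb]
  have hE := transfer h₀.eq_rec
  have hSu := transfer h₀.succ_rec
  have h1 : R1 (fun x => ∃ a, x = cd a) := by
    have hp := R2.proj (hE.and (r2_lt e)) (fun u v h => length_le_of_idx_le e h.2.le)
    have hEd : R1 (fun x : List S => ∃ u v, (u ∈ dom₀ ∧ v ∈ dom₀ ∧ val₀ u = val₀ v) ∧
        x = List.map Sum.inl u ∧ x = List.map Sum.inl v) := fun Λ τ => hE Λ τ τ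
    refine R1.congr (hEd.and hp.not) fun x => ?_
    constructor
    · rintro ⟨a, rfl⟩
      obtain ⟨u, hu, hua, huc⟩ := hcd1 a
      refine ⟨⟨u, u, ⟨hu, hu, rfl⟩, huc, huc⟩, ?_⟩
      rintro ⟨y, ⟨u', v', ⟨hu', hv', hval⟩, rfl, hv'c⟩, hlt⟩
      have : v' = u := hinl (by rw [← hv'c, huc])
      subst this
      exact absurd (hmin a u' hu' (hval.trans hua)) (not_le.2 hlt)
    · rintro ⟨⟨u, v, ⟨hu, hv, hval⟩, rfl, hvc⟩, hno⟩
      refine ⟨val₀ u, ?_⟩
      have hle := hmin (val₀ u) u hu rfl
      rcases hle.lt_or_eq with hlt | heq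
      · exfalso
        obtain ⟨u', hu', hua', huc'⟩ := hcd1 (val₀ u)
        exact hno ⟨cd (val₀ u), ⟨u', u, ⟨hu', hu, hua'⟩, huc', rfl⟩, hlt⟩
      · exact (idx_inj e heq).symm
  have h2 : R2 (fun x y => ∃ a, x = cd a ∧ y = cd (a + 1)) := by
    have ha : R2 (fun (x _ : List S) => ∃ a, x = cd a) := fun Λ τ₁ _ => h1 Λ τ₁
    have hb : R2 (fun (_ y : List S) => ∃ a, y = cd a) := fun Λ _ τ₂ => h1 Λ τ₂
    refine R2.congr (ha.and (hb.and hSu)) fun x y => ?_
    constructor
    · rintro ⟨a, rfl, rfl⟩
      obtain ⟨u, hu, hua, huc⟩ := hcd1 a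
      obtain ⟨v, hv, hva, hvc⟩ := hcd1 (a + 1)
      exact ⟨⟨a, rfl⟩, ⟨a + 1, rfl⟩, u, v, ⟨hu, hv, by rw [hva, hua]⟩, huc, hvc⟩
    · rintro ⟨⟨a, rfl⟩, ⟨b, rfl⟩, u, v, ⟨hu, hv, hval⟩, huc, hvc⟩
      obtain ⟨u', hu', hua', huc'⟩ := hcd1 a
      obtain ⟨v', hv', hva', hvc'⟩ := hcd1 b
      have e1 : u = u' := hinl (by rw [← huc, huc'])
      have e2 : v = v' := hinl (by rw [← hvc, hvc'])
      subst e1 e2
      refine ⟨a, rfl, ?_⟩
      rw [← hva', hval, hua']
  -- the line
  have hginj : Function.Injective fun a => idx e (cd a) := (idx_inj e).comp hcdinj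
  have hnbinj : Function.Injective (nb m) := fun i j h => by
    have := (NN_strictMono m).injective h
    omega
  have hlt : ∀ j, j < nb m j := by
    intro j
    have h3 := NN_ge m (j + 2)
    have h4 : j + 2 < 2 ^ (j + 2) := Nat.lt_two_pow_self
    have h5 : nb m j = NN m (j + 2) := rfl
    omega
  obtain ⟨pos, hbij, hstep, hlate⟩ := exists_pos hginj hnbinj hlt
  have hencinj := enc_inj e cd hcdinj
  -- the new presentation
  set dom : Language (Let S) := {W | ∃ d, enc e cd d = dec W} with hdom
  set val : List (Let S) → ℕ := fun W =>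
    if h : ∃ d, enc e cd d = dec W then pos h.choose else 0 with hval
  have hmem : ∀ W, W ∈ dom ↔ ∃ d, enc e cd d = dec W := fun W => Iff.rfl
  have hvald : ∀ W d, enc e cd d = dec W → val W = pos d := by
    intro W d hd
    have h : ∃ d, enc e cd d = dec W := ⟨d, hd⟩
    rw [hval]
    simp only [dif_pos h]
    rw [hencinj (h.choose_spec.trans hd.symm)]
  refine ⟨Let S, inferInstance, dom, val, ⟨?_, ?_, ?_, ?_⟩, ?_⟩
  · exact (rg_valid e cd h1 (fun γ : Let S => γ.1) (fun γ => γ.2.1) (fun γ => γ.2.2.1)
      (fun γ => γ.2.2.2)).congr fun W => valid_iff e cd _ _ _ _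
  · intro n
    obtain ⟨d, rfl⟩ := hbij.2 n
    rcases hd : enc e cd d with ⟨h, x, y, w⟩
    have hW : enc e cd d = dec (mk h (x.length + y.length + w.length + 1) x y w) := by
      rw [hd]
      obtain ⟨c1, c2, c3⟩ := ct_mk h (x.length + y.length + w.length + 1) x y w
      unfold dec
      rw [c1, c2, c3, List.take_of_length_le (by omega), List.take_of_length_le (by omega),
        List.take_of_length_le (by omega)]
      simp [mk, hdr]
    exact ⟨_, ⟨d, hW⟩, hvald _ d hW⟩
  · refine syncRec_of
      (P := fun w => ValidC e cd (hdr (fun ℓ => (ℓ.1.map fun γ => γ.1).getD 5) w)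
        (ct (fun ℓ => ℓ.1.bind fun γ => γ.2.1) w) (ct (fun ℓ => ℓ.1.bind fun γ => γ.2.2.1) w)
        (ct (fun ℓ => ℓ.1.bind fun γ => γ.2.2.2) w) ∧
        hdr (fun ℓ => (ℓ.1.map fun γ => γ.1).getD 5) w =
          hdr (fun ℓ => (ℓ.2.map fun γ => γ.1).getD 5) w ∧
        ct (fun ℓ => ℓ.1.bind fun γ => γ.2.1) w = ct (fun ℓ => ℓ.2.bind fun γ => γ.2.1) w ∧
        ct (fun ℓ => ℓ.1.bind fun γ => γ.2.2.1) w = ct (fun ℓ => ℓ.2.bind fun γ => γ.2.2.1) w ∧
        ct (fun ℓ => ℓ.1.bind fun γ => γ.2.2.2) w = ct (fun ℓ => ℓ.2.bind fun γ => γ.2.2.2) w)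
      ?_ ?_
    · exact (rg_valid e cd h1 _ _ _ _).and ((rg_hdr_eq _ _).and ((r2_eq _ _ _).and
        ((r2_eq _ _ _).and (r2_eq _ _ _))))
    · intro U V
      rw [hdr_conv1, hdr_conv2, ct_conv1, ct_conv1, ct_conv1, ct_conv2, ct_conv2, ct_conv2,
        ← valid_iff, hmem, hmem]
      constructor
      · rintro ⟨⟨d, hd⟩, e1, e2, e3, e4⟩
        have hUV : dec V = dec U := by unfold dec; rw [e1, e2, e3, e4]
        have hdU : enc e cd d = dec U := hd
        exact ⟨⟨d, hdU⟩, ⟨d, hdU.trans hUV.symm⟩, by rw [hvald U d hdU,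
          hvald V d (hdU.trans hUV.symm)]⟩
      · rintro ⟨⟨d, hd⟩, ⟨d', hd'⟩, hv⟩
        rw [hvald U d hd, hvald V d' hd'] at hv
        have := hbij.1 hv
        subst this
        have hUV : dec U = dec V := hd.symm.trans hd'
        unfold dec at hUV
        simp only [Prod.mk.injEq] at hUV
        exact ⟨⟨d, hd⟩, hUV⟩
  · refine syncRec_of
      (P := fun w => StepC e cd (hdr (fun ℓ => (ℓ.1.map fun γ => γ.1).getD 5) w)
        (ct (fun ℓ => ℓ.1.bind fun γ => γ.2.1) w) (ct (fun ℓ => ℓ.1.bind fun γ => γ.2.2.1) w)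
        (ct (fun ℓ => ℓ.1.bind fun γ => γ.2.2.2) w)
        (hdr (fun ℓ => (ℓ.2.map fun γ => γ.1).getD 5) w)
        (ct (fun ℓ => ℓ.2.bind fun γ => γ.2.1) w) (ct (fun ℓ => ℓ.2.bind fun γ => γ.2.2.1) w)
        (ct (fun ℓ => ℓ.2.bind fun γ => γ.2.2.2) w))
      (rg_step e cd h1 h2 _ _ _ _ _ _ _ _) ?_
    intro U V
    rw [hdr_conv1, hdr_conv2, ct_conv1, ct_conv1, ct_conv1, ct_conv2, ct_conv2, ct_conv2,
      ← step_iff, hmem, hmem]
    constructor
    · rintro ⟨d, d', hs, hd, hd'⟩
      refine ⟨⟨d, hd⟩, ⟨d', hd'⟩, ?_⟩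
      rw [hvald U d hd, hvald V d' hd']
      exact (hstep d d').1 hs
    · rintro ⟨⟨d, hd⟩, ⟨d', hd'⟩, hv⟩
      rw [hvald U d hd, hvald V d' hd'] at hv
      exact ⟨d, d', (hstep d d').2 hv, hd, hd'⟩
  · intro n
    set W := mk 5 n (List.replicate n (zz0 e)) [] [] with hW
    have hWd : enc e cd (D.ld n 0 0) = dec W := by
      obtain ⟨c1, c2, c3⟩ := ct_mk 5 n (List.replicate n (zz0 e)) [] []
      unfold dec
      rw [hW, c1, c2, c3]
      cases n with
      | zero => simp [enc, st_zero, mk, hdr]
      | succ n => simp [enc, st_zero, mk, hdr]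
    have hWv := hvald W _ hWd
    have hfin : {k | ∃ u ∈ dom, u.length ≤ n ∧ k = shortest dom₀ val₀ (val u)}.Finite := by
      refine ((List.finite_length_le (Let S) n).image
        (fun u => shortest dom₀ val₀ (val u))).subset ?_
      rintro k ⟨u, -, hu, rfl⟩
      exact ⟨u, hu, rfl⟩
    refine le_trans ?_ (le_csSup hfin.bddAbove ⟨W, ⟨_, hWd⟩, (mk_length _ _ _ _ _).le, rfl⟩)
    unfold shortest
    refine le_csInf ?_ ?_
    · obtain ⟨v, hv, hvv⟩ := h₀.onto (val W)
      exact ⟨_, v, hv, hvv, rfl⟩
    · rintro k ⟨v, hv, hvv, rfl⟩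
      by_contra hcon
      push Not at hcon
      have h3 : idx e (cd (val W)) ≤ idx e (v.map Sum.inl) := hmin _ v hv hvv
      have h4 : idx e (v.map Sum.inl : List S) < NN m (T n) :=
        idx_lt_of_length e (by simpa using hcon)
      have h5 : NN m (T n) ≤ nb m ((nb m)^[n] 0) := (NN_strictMono m).monotone (T_le n)
      have h6 := hlate n (val W) (by omega)
      rw [← hWv] at h6
      exact lt_irrefl _ h6

end Pool.Agent.Results.MP_0022d4_lc.TowerCompression
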